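import Pool.Agent.H40.Hc2

set_option autoImplicit false

namespace Pool.Agent.Results.MP_0aaa5a_lc.Holds

open Pool.Agent.H40.Hc

theorem result : ∀ X T : M, HS X → HS T → Compact X T → Metrizable X T → Separable X T :=
  fun _ _ a b c d => sep a c d b

end Pool.Agent.Results.MP_0aaa5a_lc.Holds
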